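import Mathlib
import Pool.Agent.Lib.MP_4a6af7_co.Thr.Cls

/-! Gluing at a cut vertex, and graphs whose short cycles are blocks. -/

set_option autoImplicit false

namespace Pool.Agent.Lib.MP_4a6af7_co.Blk

open Finset SimpleGraph Pool.Agent.Lib.MP_4a6af7_co.Lin Pool.Agent.Lib.MP_4a6af7_co.Deg
  Pool.Agent.Lib.MP_4a6af7_co.Thr

variable {V I : Type} [DecidableEq V] [DecidableEq I]

theorem split {S : Finset I} {B₁ B₂ A : I → Finset (Sym2 V)} {F₁ F₂ : Finset (Sym2 V)}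
    (h1 : Perf I F₁) (h2 : Perf I F₂) (hA : ∀ j ∈ S, IsMat id (A j)) (s1 : ∀ j, B₁ j ⊆ A j)
    (s2 : ∀ j, B₂ j ⊆ A j) {h : ℕ}
    (c1 : (S.filter fun j => (B₂ j ∩ F₂).card + h < S.card).card ≤ h)
    (c2 : h ≤ (S.filter fun j => h ≤ (B₁ j ∩ F₁).card).card)
    (c3 : ∀ j ∈ S, (B₂ j ∩ F₂).card + h < S.card → h ≤ (B₁ j ∩ F₁).card)
    (hd : ∀ j k, ∀ e ∈ B₁ j ∩ F₁, ∀ f ∈ B₂ k ∩ F₂, ∀ v, v ∈ e → v ∉ f) :
    RO S fun j => A j ∩ (F₁ ∪ F₂) := by
  obtain ⟨H, a1, a2, a3⟩ := exists_subsuperset_card_eq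
    (s := S.filter fun j => (B₂ j ∩ F₂).card + h < S.card)
    (t := S.filter fun j => h ≤ (B₁ j ∩ F₁).card)
    (fun j hj => mem_filter.mpr ⟨(mem_filter.mp hj).1, c3 j (mem_filter.mp hj).1
      (mem_filter.mp hj).2⟩) c1 c2
  have a4 : H ⊆ S := a2.trans (filter_subset _ _)
  refine RO.glue (h1 H B₁ fun j hj => ⟨(hA j (a4 hj)).mono (s1 j), a3 ▸ (mem_filter.mp (a2 hj)).2⟩)
    (h2 (S \ H) B₂ fun j hj => ⟨(hA j (mem_sdiff.mp hj).1).mono (s2 j), ?_⟩)
    (fun j => Or.inl (inter_subset_inter (s1 j) subset_union_left))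
    (fun j => inter_subset_inter (s2 j) subset_union_right) fun j _ k _ => hd j k
  have b1 : ¬ (B₂ j ∩ F₂).card + h < S.card := fun b =>
    (mem_sdiff.mp hj).2 (a1 (mem_filter.mpr ⟨(mem_sdiff.mp hj).1, b⟩))
  have b2 := card_sdiff_add_card_eq_card a4
  omega

/-- Perfect edge sets can be glued at a vertex. -/
theorem glue {F₁ F₂ : Finset (Sym2 V)} (h1 : Perf I F₁) (h2 : Perf I F₂) (v : V)
    (hd : ∀ e ∈ F₁, ∀ f ∈ F₂, ∀ w, w ∈ e → w ∈ f → w = v) : Perf I (F₁ ∪ F₂) := by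
  intro S A hA
  set B : I → Finset (Sym2 V) := fun j => (A j).filter fun e => v ∉ e with hB
  have sB : ∀ j, B j ⊆ A j := fun j => filter_subset _ _
  have k0 : ∀ j ∈ S, ∀ F, (A j ∩ F).card ≤ (B j ∩ F).card + 1 := fun j hj F => by
    have b1 : ((A j).filter fun e => v ∈ e).card ≤ 1 := card_le_one.mpr fun e he f hf =>
      by_contra fun b => (hA j hj).1 e (mem_filter.mp he).1 f (mem_filter.mp hf).1 b v
        (mem_filter.mp he).2 (mem_filter.mp hf).2
    have b2 : A j ∩ F ⊆ (B j ∩ F) ∪ (A j).filter fun e => v ∈ e := fun e he => by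
      simp only [hB, mem_union, mem_inter, mem_filter] at he ⊢
      tauto
    have := (card_le_card b2).trans (card_union_le _ _)
    omega
  have k1 : ∀ X : Finset (Sym2 V), (X ∩ (F₁ ∪ F₂)).card ≤ (X ∩ F₁).card + (X ∩ F₂).card :=
    fun X => by rw [inter_union_distrib_left]; exact card_union_le _ _
  set h := Nat.findGreatest (fun h => h ≤ (S.filter fun j => h ≤ (A j ∩ F₁).card).card) S.card
    with hh
  have k2 : h ≤ (S.filter fun j => h ≤ (A j ∩ F₁).card).card :=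
    Nat.findGreatest_spec (P := fun h => h ≤ (S.filter fun j => h ≤ (A j ∩ F₁).card).card)
      (Nat.zero_le _) (Nat.zero_le _)
  have k3 : (S.filter fun j => h + 1 ≤ (A j ∩ F₁).card).card ≤ h := by
    by_cases b : h + 1 ≤ S.card
    · have := Nat.findGreatest_is_greatest
        (P := fun h => h ≤ (S.filter fun j => h ≤ (A j ∩ F₁).card).card) (show h < h + 1 by omega) b
      omega
    · have := card_filter_le S fun j => h + 1 ≤ (A j ∩ F₁).card
      omega
  have k4 : ∀ j ∈ S, (B j ∩ F₂).card + h < S.card → h ≤ (B j ∩ F₁).card := fun j hj b => by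
    have := k0 j hj (F₁ ∪ F₂)
    have := k1 (B j)
    have := (hA j hj).2
    omega
  have k5 : ∀ j F, (B j ∩ F).card ≤ (A j ∩ F).card := fun j F =>
    card_le_card (inter_subset_inter (sB j) Subset.rfl)
  by_cases c : h ≤ (S.filter fun j => h ≤ (B j ∩ F₁).card).card
  · refine split h1 h2 (fun j hj => (hA j hj).1) sB (fun _ => Subset.rfl)
      (le_trans (card_le_card fun j hj => ?_) k3) c
      (fun j hj b => k4 j hj (by have := k5 j F₂; omega)) fun j k e he f hf w b1 b2 => ?_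
    · obtain ⟨b1, b2⟩ := mem_filter.mp hj
      have := k1 (A j)
      have := (hA j b1).2
      exact mem_filter.mpr ⟨b1, by omega⟩
    · exact (mem_filter.mp (mem_inter.mp he).1).2
        (hd e (mem_inter.mp he).2 f (mem_inter.mp hf).2 w b1 b2 ▸ b1)
  · refine split h1 h2 (fun j hj => (hA j hj).1) (fun _ => Subset.rfl) sB
      (le_trans (card_le_card fun j hj => ?_) (not_le.mp c).le) k2
      (fun j hj b => (k4 j hj b).trans (k5 j F₁)) fun j k e he f hf w b1 b2 => ?_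
    · exact mem_filter.mpr ⟨(mem_filter.mp hj).1, k4 j (mem_filter.mp hj).1 (mem_filter.mp hj).2⟩
    · exact (mem_filter.mp (mem_inter.mp hf).1).2
        (hd e (mem_inter.mp he).2 f (mem_inter.mp hf).2 w b1 b2 ▸ b2)

theorem circ_walk (G : SimpleGraph V) {F : Finset (Sym2 V)} (hF : Circ F)
    (hE : ∀ e ∈ F, e ∈ G.edgeSet) :
    ∃ (u : V) (c : G.Walk u u), c.IsCycle ∧ c.edges.toFinset = F := by
  have hTe := edge_from G hE
  have hle : fromEdgeSet (F : Set (Sym2 V)) ≤ G :=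
    edgeSet_subset_edgeSet.mp (by rw [hTe]; exact hE)
  by_cases hac : (fromEdgeSet (F : Set (Sym2 V))).IsAcyclic
  · rcases leaf_or_cycle _ F (fun e he => by rw [hTe]; exact he) hF.1 with h | ⟨Q, -, h2, -⟩
    · exact absurd h hF.2.1
    · rw [egirth_eq_top.mpr hac] at h2
      exact absurd h2 (by simp)
  unfold IsAcyclic at hac
  push Not at hac
  obtain ⟨u, c, hc⟩ := hac
  obtain ⟨-, c2, c3⟩ := cyc_set hc
  have c4 : c.edges.toFinset ⊆ F := fun f hf => by
    have := c.edges_subset_edgeSet (List.mem_toFinset.mp hf)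
    rwa [hTe] at this
  refine ⟨u, c.mapLe hle, hc.mapLe _, ?_⟩
  rw [Walk.edges_mapLe_eq_edges]
  exact Subset.antisymm c4 fun e he => by_contra fun a => c3 (hF.2.2 e he _
    (fun f hf => mem_erase.mpr ⟨fun b => a (b ▸ hf), c4 hf⟩) c2)

theorem perf [Nonempty (Sym2 V)] (G : SimpleGraph V) {n : ℕ} (hn : 2 ≤ n)
    (hG : ∀ u (c : G.Walk u u), c.IsCycle → c.length + 2 ≤ 3 * n →
      (Odd c.length ∨ 2 * n < c.length) ∧ ∀ x ∈ c.support, ∀ y ∈ c.support,
        (G.deleteEdges {e | e ∈ c.edges}).Reachable x y → x = y)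
    (D : Finset (Sym2 V)) : (∀ e ∈ D, e ∈ G.edgeSet) → Perf (Fin n) D := by
  induction D using Finset.strongInduction with
  | H D ih =>
  intro hD
  classical
  by_cases h : ∃ F ⊆ D, Circ F ∧ F.card + 2 ≤ 3 * n
  · obtain ⟨F, s1, s2, s3⟩ := h
    obtain ⟨u, c, c1, c2⟩ := circ_walk G s2 fun e he => hD e (s1 he)
    have c3 : F.card = c.length := c2 ▸ (cyc_set c1).1
    obtain ⟨g1, g2⟩ := hG u c c1 (by omega)
    by_cases b : D ⊆ F
    · obtain rfl : D = F := Subset.antisymm b s1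
      intro S A hA
      rcases S.eq_empty_or_nonempty with rfl | ⟨j, hj⟩
      · exact ⟨fun _ => Classical.arbitrary _, by simp, by simp⟩
      refine ro_col s2 ?_ hA
      have a1 := half s2 (fun e he => G.not_isDiag_of_mem_edgeSet (hD e he)) (hA j hj).1
      have a2 := (hA j hj).2
      have a3 : S.card ≤ n := by simpa using card_le_univ S
      rcases g1 with ⟨k, hk⟩ | g1 <;> omega
    obtain ⟨e₀, a1, a2⟩ := not_subset.mp b
    set T := G.deleteEdges {e | e ∈ c.edges} with hT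
    set x := e₀.out.1
    set F₂ := D.filter fun e => e ∉ F ∧ ∃ z ∈ e, T.Reachable x z with hF₂
    have m : e₀ ∈ F₂ := mem_filter.mpr ⟨a1, a2, x, Sym2.out_fst_mem _, Reachable.refl _⟩
    have r : ∀ f ∈ F₂, ∀ w ∈ f, T.Reachable x w := fun f hf w hw => by
      obtain ⟨f1, f2, z, f3, f4⟩ := mem_filter.mp hf
      by_cases q : z = w
      · exact q ▸ f4
      obtain rfl := (Sym2.mem_and_mem_iff q).mp ⟨f3, hw⟩
      exact f4.trans (Adj.reachable (deleteEdges_adj.mpr
        ⟨hD _ f1, fun a => f2 (c2 ▸ List.mem_toFinset.mpr a)⟩))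
    have sh : ∀ e ∈ D \ F₂, ∀ f ∈ F₂, ∀ w, w ∈ e → w ∈ f → w ∈ c.support := fun e he f hf w b1 b2 => by
      have : e ∈ F := by_contra fun q => (mem_sdiff.mp he).2
        (mem_filter.mpr ⟨(mem_sdiff.mp he).1, q, w, b1, r f hf w b2⟩)
      exact Walk.mem_support_iff_exists_mem_edges.mpr
        (Or.inr ⟨e, List.mem_toFinset.mp (c2 ▸ this), b1⟩)
    obtain ⟨v, hv⟩ : ∃ v, ∀ w ∈ c.support, T.Reachable x w → w = v := by
      by_cases q : ∃ v ∈ c.support, T.Reachable x v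
      · obtain ⟨v, q1, q2⟩ := q
        exact ⟨v, fun w b1 b2 => g2 w b1 v q1 (b2.symm.trans q2)⟩
      · exact ⟨x, fun w b1 b2 => absurd ⟨w, b1, b2⟩ q⟩
    have sub : F₂ ⊆ D := filter_subset _ _
    obtain ⟨e₁, b1⟩ := s2.1
    have := glue (ih (D \ F₂) (sdiff_ssubset sub ⟨e₀, m⟩) fun e he => hD e (sdiff_subset he))
      (ih F₂ ((ssubset_iff_of_subset sub).mpr ⟨e₁, s1 b1, fun q => (mem_filter.mp q).2.1 b1⟩)
        fun e he => hD e (sub he)) v
      fun e he f hf w q1 q2 => hv w (sh e he f hf w q1 q2) (r f hf w q2)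
    rwa [sdiff_union_of_subset sub] at this
  have hTe := edge_from G hD
  have hg : ((3 * n - 1 : ℕ) : ℕ∞) ≤ (fromEdgeSet (D : Set (Sym2 V))).egirth :=
    le_egirth.mpr fun a w hw => by
      obtain ⟨c1, c2, c3⟩ := cyc_set hw
      obtain ⟨F, f1, f2⟩ := circ_sub c2 c3
      have c4 : w.edges.toFinset ⊆ D := fun f hf => by
        have := w.edges_subset_edgeSet (List.mem_toFinset.mp hf)
        rwa [hTe] at this
      have c5 : ¬ F.card + 2 ≤ 3 * n := fun b => h ⟨F, f1.trans c4, f2, b⟩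
      have := card_le_card f1
      exact Nat.cast_le.mpr (by omega)
  exact fun S A hA => RO.of_rb (rb_girth _ hn hg
    (by rw [Fintype.card_coe]; simpa using card_le_univ S) _
    (fun k e he => by rw [hTe]; exact (mem_inter.mp he).2)
    (fun k => (hA k.1 k.2).1.mono inter_subset_left)
    fun k => (Fintype.card_coe S).le.trans (hA k.1 k.2).2)

end Pool.Agent.Lib.MP_4a6af7_co.Blk
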